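import Pool.Agent.IM66.Fin

/-!
# Integral means and all coefficients of univalent harmonic maps
-/

set_option autoImplicit false

namespace Pool.Agent.Results.MP_a0ec2a_an.IntegralMeans

/-- For a map `f = h + conj g` in `S_H`, the means over the circle of radius `r` of `|h'|`,
`|g'|` and `|h' + e g'|`, `|e| = 1` (the last one divided by its value at the centre), are at most
`(1 + r) ^ 2 (1 + r ^ 2) / (1 - r ^ 2) ^ 3`; hence all coefficients are at most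
`3 / 4 n ^ 2 + 3 / 2` and at most `(e ^ 3 / 27) (n ^ 2 + 5 / 2)` in modulus. -/
theorem result :
    ∀ h g : ℂ → ℂ,
      DifferentiableOn ℂ h (Metric.ball (0 : ℂ) 1) →
      DifferentiableOn ℂ g (Metric.ball (0 : ℂ) 1) →
      h 0 = 0 → g 0 = 0 → deriv h 0 = 1 →
      (∀ z ∈ Metric.ball (0 : ℂ) 1, ‖deriv g z‖ < ‖deriv h z‖) →
      Set.InjOn (fun z => h z + (starRingEnd ℂ) (g z)) (Metric.ball (0 : ℂ) 1) →
      (∀ r : ℝ, 0 < r → r < 1 →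
        (∀ e : ℂ, ‖e‖ = 1 →
          (2 * Real.pi)⁻¹ * ∫ θ in (0 : ℝ)..2 * Real.pi,
            ‖deriv h (circleMap 0 r θ) + e * deriv g (circleMap 0 r θ)‖ ≤
          ‖1 + e * deriv g 0‖ * ((1 + r) ^ 2 * (1 + r ^ 2) / (1 - r ^ 2) ^ 3)) ∧
        (2 * Real.pi)⁻¹ * ∫ θ in (0 : ℝ)..2 * Real.pi, ‖deriv h (circleMap 0 r θ)‖ ≤
          (1 + r) ^ 2 * (1 + r ^ 2) / (1 - r ^ 2) ^ 3 ∧
        (2 * Real.pi)⁻¹ * ∫ θ in (0 : ℝ)..2 * Real.pi, ‖deriv g (circleMap 0 r θ)‖ ≤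
          (1 + r) ^ 2 * (1 + r ^ 2) / (1 - r ^ 2) ^ 3) ∧
      ∀ n : ℕ, 1 ≤ n →
        (‖iteratedDeriv n h 0‖ / (n.factorial : ℝ) ≤ 3 / 4 * (n : ℝ) ^ 2 + 3 / 2 ∧
          ‖iteratedDeriv n h 0‖ / (n.factorial : ℝ) ≤
            Real.exp 3 / 27 * ((n : ℝ) ^ 2 + 5 / 2)) ∧
        (‖iteratedDeriv n g 0‖ / (n.factorial : ℝ) ≤ 3 / 4 * (n : ℝ) ^ 2 + 3 / 2 ∧
          ‖iteratedDeriv n g 0‖ / (n.factorial : ℝ) ≤
            Real.exp 3 / 27 * ((n : ℝ) ^ 2 + 5 / 2)) ∧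
        ∀ e : ℂ, ‖e‖ = 1 →
          ‖iteratedDeriv n h 0 + e * iteratedDeriv n g 0‖ / (n.factorial : ℝ) ≤
            (3 / 4 * (n : ℝ) ^ 2 + 3 / 2) * ‖1 + e * deriv g 0‖ ∧
          ‖iteratedDeriv n h 0 + e * iteratedDeriv n g 0‖ / (n.factorial : ℝ) ≤
            Real.exp 3 / 27 * ((n : ℝ) ^ 2 + 5 / 2) * ‖1 + e * deriv g 0‖ := by
  intro h g dh dg h0 g0 h1 hlt hinj
  exact IM66.main ⟨dh, dg, hlt, hinj⟩ h0 g0 h1

end Pool.Agent.Results.MP_a0ec2a_an.IntegralMeans
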