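import Pool.Agent.Reg66.Reg2

/-!
# Regularity of the coefficients of univalent harmonic maps
-/

set_option autoImplicit false

namespace Pool.Agent.Results.MP_a0ec2a_an.Regularity

open Filter Topology

/-- For every map in `S_H`, `a n ~ A x⁻ⁿ n ^ 2` and `b n ~ B x⁻ⁿ n ^ 2` with a unimodular `x` and
`|A| = |B| ≤ (1 + |b 1|) / 3 < 2 / 3`; hence both coefficient bounds hold, with strict inequality,
for all large `n`. -/
theorem result :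
    ∀ h g : ℂ → ℂ,
      DifferentiableOn ℂ h (Metric.ball (0 : ℂ) 1) →
      DifferentiableOn ℂ g (Metric.ball (0 : ℂ) 1) →
      h 0 = 0 → g 0 = 0 → deriv h 0 = 1 →
      (∀ z ∈ Metric.ball (0 : ℂ) 1, ‖deriv g z‖ < ‖deriv h z‖) →
      Set.InjOn (fun z => h z + (starRingEnd ℂ) (g z)) (Metric.ball (0 : ℂ) 1) →
      (∃ x A B : ℂ, ‖x‖ = 1 ∧ ‖B‖ = ‖A‖ ∧ ‖A‖ ≤ (1 + ‖deriv g 0‖) / 3 ∧
        Tendsto (fun n : ℕ => iteratedDeriv n h 0 / (n.factorial : ℂ) / (n : ℂ) ^ 2 * x ^ n)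
          atTop (𝓝 A) ∧
        Tendsto (fun n : ℕ => iteratedDeriv n g 0 / (n.factorial : ℂ) / (n : ℂ) ^ 2 * x ^ n)
          atTop (𝓝 B) ∧
        (‖A‖ = (1 + ‖deriv g 0‖) / 3 → ∃ e u : ℂ, ‖e‖ = 1 ∧ ‖u‖ = 1 ∧
          ∀ z ∈ Metric.ball (0 : ℂ) 1, deriv h z + e * deriv g z =
            (1 + ‖deriv g 0‖) * ((1 + u * z) ^ 2 / (1 - u * z) ^ 4))) ∧
      ∃ n₀ : ℕ, ∀ n : ℕ, n₀ ≤ n →
        ‖iteratedDeriv n h 0‖ / (n.factorial : ℝ) < (2 * (n : ℝ) ^ 2 + 1) / 3 ∧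
        ‖iteratedDeriv n g 0‖ / (n.factorial : ℝ) < (2 * (n : ℝ) ^ 2 + 1) / 3 := by
  intro h g dh dg h0 g0 h1 hlt hinj
  obtain ⟨x, A, B, hx, hBA, hA, tA, tB, hr⟩ := Reg66.regularity2 ⟨dh, dg, hlt, hinj⟩ h0 g0 h1
  refine ⟨⟨x, A, B, hx, hBA, hA, tA, tB, hr⟩, ?_⟩
  have hb1 : ‖deriv g 0‖ < 1 := by
    have h2 := hlt 0 (by simp)
    rwa [h1, norm_one] at h2
  have hA2 : ‖A‖ < 2 / 3 := by linarith
  have key : ∀ (f : ℂ → ℂ) (C : ℂ), ‖C‖ < 2 / 3 →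
      Tendsto (fun n : ℕ => Reg66.cf n f / (n : ℂ) ^ 2 * x ^ n) atTop (𝓝 C) →
      ∀ᶠ n : ℕ in atTop, ‖iteratedDeriv n f 0‖ / (n.factorial : ℝ) <
        (2 * (n : ℝ) ^ 2 + 1) / 3 := by
    intro f C hC t
    filter_upwards [t.norm.eventually (gt_mem_nhds hC), eventually_ge_atTop 1] with n hn hn1
    have hn0 : (0 : ℝ) < n := by exact_mod_cast hn1
    unfold Reg66.cf at hn
    rw [norm_mul, norm_div, norm_div, norm_pow, norm_pow, hx, one_pow, mul_one,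
      Complex.norm_natCast, Complex.norm_natCast, div_lt_iff₀ (by positivity)] at hn
    linarith
  exact eventually_atTop.1 ((key h A hA2 tA).and (key g B (by rw [hBA]; exact hA2) tB))

end Pool.Agent.Results.MP_a0ec2a_an.Regularity
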