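import Mathlib
import Pool.Agent.CSH.Final
import Pool.Agent.CSH3.Final3
import Pool.Agent.CSH4.Final4

set_option autoImplicit false

/-!
# MP_a0ec2a_an: the sharp coefficient theorem in `S_H` for `n <= 4`

For every `f = h + conj g` in `S_H` and `n <= 4`: `|a_n| <= (2 n^2 + 1) / 3` and
`|a_{-n}| <= (2 n^2 + 1) / 3`, that is `3` for `n = 2`, `19/3` for `n = 3`, `11` for `n = 4`; more
precisely `|a_n + ε b_n| <= (2 n^2 + 1) / 3 |1 + ε b_1|` for every unimodular `ε`
(`h = z + a_2 z^2 + ...`, `g = b_1 z + b_2 z^2 + ...`).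

Idea of the proof.  Fix the coordinate `Im L`, `L = h - g` (after a rotation), of a univalent
harmonic polynomial `f` near the closed disc.  By an exact quadrature over finitely many regular
levels one finds `Lhat` with the same Taylor coefficients up to a given order, whose imaginary part
is a step function on the circle and whose derivative has all its zeros on the circle.  The
planarity of `f` gives a non-crossing matching of the jumps; a diagonally dominant linear system
gives `R` with `Im R > 0` such that the maximal surface `X' = Lhat' (1, R, R^2)` in `R^{2,1}` closes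
up and is achronal: `K = (Im dF)^2 - Im dG Im dL > 0`.  A two-point minimum principle for `log K`
and its diagonal limit give `|Psi| <= 2` at every point, where `Psi` is the hyperbolic gradient of
the logarithm of the conformal radius `(1 - |z|^2) |Lhat'| Im R`.

The value at `0` gives `n = 2`.  For `n = 3` let `B = (R - R(0)) / (R - conj R(0))` and
`g = Lhat'' / (2 Lhat') + R' / (R - conj R(0))`; on the circle `|z| = 1/4` the bound `|Psi| <= 2`
places `z g(z)` in a disc, and the Schwarz-Pick inequality for `g` in that disc, together with the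
Schwarz-Pick inequality for `B`, gives `|Lhat'''(0)| <= 38 |Lhat'(0)|`.  For `n = 4` the same is
done on the circle `|z|^2 = 1/18`, with a truncated Clunie inequality for the coefficients of
`H`, `H' = 2 g H`, and two Schur steps for `B / z`; this gives `|Lhat''''(0)| <= 264 |Lhat'(0)|`.
-/

namespace Pool.Agent.Results.MP_a0ec2a_an.SharpUpToFour

/-- **Sharp coefficient theorem** for `n <= 4`. -/
theorem result :
    ∀ h g : ℂ → ℂ,
      DifferentiableOn ℂ h (Metric.ball (0 : ℂ) 1) →
      DifferentiableOn ℂ g (Metric.ball (0 : ℂ) 1) →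
      h 0 = 0 → g 0 = 0 → deriv h 0 = 1 →
      (∀ z ∈ Metric.ball (0 : ℂ) 1, ‖deriv g z‖ < ‖deriv h z‖) →
      Set.InjOn (fun z => h z + (starRingEnd ℂ) (g z)) (Metric.ball (0 : ℂ) 1) →
      ∀ n : ℕ, 1 ≤ n → n ≤ 4 →
        ‖iteratedDeriv n h 0‖ / (n.factorial : ℝ) ≤ (2 * (n : ℝ) ^ 2 + 1) / 3 ∧
        ‖iteratedDeriv n g 0‖ / (n.factorial : ℝ) ≤ (2 * (n : ℝ) ^ 2 + 1) / 3 ∧
        ∀ ε : ℂ, ‖ε‖ = 1 →
          ‖iteratedDeriv n h 0 + ε * iteratedDeriv n g 0‖ / (n.factorial : ℝ)
            ≤ (2 * (n : ℝ) ^ 2 + 1) / 3 * ‖1 + ε * deriv g 0‖ := by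
  intro h g hh hg _ _ h1 hlt hinj n hn1 hn4
  interval_cases n
  · -- `n = 1`
    have hb : ‖deriv g 0‖ < ‖deriv h 0‖ := hlt 0 (by simp)
    rw [h1, norm_one] at hb
    refine ⟨?_, ?_, ?_⟩
    · rw [iteratedDeriv_one, h1]; norm_num
    · rw [iteratedDeriv_one]; norm_num; exact hb.le
    · intro ε _
      rw [iteratedDeriv_one, iteratedDeriv_one, h1]; norm_num
  · -- `n = 2`
    have h2 := Pool.CSH.second_coeff h g hh hg h1 hlt hinj
    have e : ∀ f : ℂ → ℂ, iteratedDeriv 2 f 0 = deriv (deriv f) 0 := by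
      intro f
      rw [iteratedDeriv_succ, iteratedDeriv_one]
    have e2 : ∀ w : ℂ, ‖w / 2‖ = ‖w‖ / 2 := by
      intro w
      rw [norm_div, RCLike.norm_ofNat]
    rw [e2, e2] at h2
    have c1 : ((Nat.factorial 2 : ℕ) : ℝ) = 2 := by norm_num [Nat.factorial]
    have c2 : (2 * ((2 : ℕ) : ℝ) ^ 2 + 1) / 3 = 3 := by norm_num
    rw [c1, c2, e, e]
    refine ⟨h2.1, h2.2.1, ?_⟩
    intro ε hε
    rw [← e2]
    exact h2.2.2 ε hε
  · -- `n = 3`
    have h3 := Pool.CSH3.third_coeff h g hh hg h1 hlt hinj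
    have c1 : ((Nat.factorial 3 : ℕ) : ℝ) = 6 := by norm_num [Nat.factorial]
    have c2 : (2 * ((3 : ℕ) : ℝ) ^ 2 + 1) / 3 = 19 / 3 := by norm_num
    rw [c1, c2]
    exact h3
  · -- `n = 4`
    have h4 := Pool.CSH4.fourth_coeff h g hh hg h1 hlt hinj
    have c1 : ((Nat.factorial 4 : ℕ) : ℝ) = 24 := by norm_num [Nat.factorial]
    have c2 : (2 * ((4 : ℕ) : ℝ) ^ 2 + 1) / 3 = 11 := by norm_num
    rw [c1, c2]
    exact h4

end Pool.Agent.Results.MP_a0ec2a_an.SharpUpToFour
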