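import Pool.Agent.HS85.LargeN

/-!
# The coefficient problem in `S_H` for maps whose dilatation has small hyperbolic size

`result`: there is `k₀ > 0` such that the conjectured bounds `|a_n|, |a_{-n}| ≤ (2n²+1)/3` hold,
with strict inequality and for all `n ≥ 2` at the same time, for every `f = h + conj g ∈ S_H` whose
second complex dilatation `ω = g'/h'` takes its values in a pseudo-hyperbolic disc of radius `k₀`
(with arbitrary centre `c` in the unit disc).

Method. After the affine change `f ↦ (f - conj b * conj f)/(1-|b|²)`, `b = g' 0`, the dilatation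
is small. A normal families argument (limits of univalent harmonic maps with dilatations tending to
`0` are univalent analytic) with the Bieberbach inequality shows that the order `sup |a₂|` of the
class tends to `2`, hence is below `9/4`; with the area inequality on `|z| < 1 - 1/n` this settles
all large `n`. The remaining finitely many `n` follow from the same normal families argument and
`|a₂| ≤ 2`, `|a₃| ≤ 5`, and Littlewood's `|a_n| < e n` for analytic univalent functions.
-/

set_option autoImplicit false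

open Complex Metric Set
open scoped ComplexConjugate

namespace Pool.Agent.Results.MP_a0ec2a_an.SmallDilatation

open Pool.Agent.HS85 Pool.Agent.HU85

theorem result : ∃ k₀ : ℝ, 0 < k₀ ∧
    ∀ h g : ℂ → ℂ,
      DifferentiableOn ℂ h (Metric.ball (0 : ℂ) 1) →
      DifferentiableOn ℂ g (Metric.ball (0 : ℂ) 1) →
      h 0 = 0 → g 0 = 0 → deriv h 0 = 1 →
      (∀ z ∈ Metric.ball (0 : ℂ) 1, ‖deriv g z‖ < ‖deriv h z‖) →
      Set.InjOn (fun z => h z + (starRingEnd ℂ) (g z)) (Metric.ball (0 : ℂ) 1) →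
      ∀ c : ℂ, ‖c‖ < 1 →
      (∀ z ∈ Metric.ball (0 : ℂ) 1,
        ‖deriv g z - c * deriv h z‖ ≤ k₀ * ‖deriv h z - (starRingEnd ℂ) c * deriv g z‖) →
      ∀ n : ℕ, 2 ≤ n →
        ‖iteratedDeriv n h 0‖ / (n.factorial : ℝ) < (2 * (n : ℝ) ^ 2 + 1) / 3 ∧
        ‖iteratedDeriv n g 0‖ / (n.factorial : ℝ) < (2 * (n : ℝ) ^ 2 + 1) / 3 := by
  obtain ⟨k₁, hk1, hall⟩ := all_n
  obtain ⟨k₀, hk0, hkl⟩ : ∃ k₀ : ℝ, 0 < k₀ ∧ k₀ < min (k₁ / 4) (1 / 2) :=
    exists_between (lt_min (by positivity) (by norm_num))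
  have hkl1 : k₀ < k₁ / 4 := hkl.trans_le (min_le_left _ _)
  have hkl2 : k₀ < 1 / 2 := hkl.trans_le (min_le_right _ _)
  refine ⟨k₀, hk0, fun h g hh hg h0 g0 h1 hlt hinj c hc hdil n hn => ?_⟩
  have h0b : (0:ℂ) ∈ ball (0:ℂ) 1 := by simp
  set b : ℂ := deriv g 0 with hb
  have hbn : ‖b‖ < 1 := by
    have := hlt 0 h0b
    rwa [h1, norm_one] at this
  have hbb : 1 - b * conj b ≠ 0 := one_sub_mul_conj_ne hbn
  have hcc : 1 - c * conj c ≠ 0 := one_sub_mul_conj_ne hc
  have hcb : ‖b - c‖ ≤ k₀ * ‖1 - conj c * b‖ := by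
    have := hdil 0 h0b
    rwa [h1, mul_one, ← hb] at this
  -- the dilatation about `b`
  have hdil2 : ∀ z ∈ ball (0:ℂ) 1,
      ‖deriv g z - b * deriv h z‖ ≤ k₁ * ‖deriv h z - conj b * deriv g z‖ := by
    intro z hz
    set p : ℂ := deriv g z - c * deriv h z with hp
    set q : ℂ := deriv h z - conj c * deriv g z with hq
    have hpq : ‖p‖ ≤ k₀ * ‖q‖ := hdil z hz
    have e1 : (1 - c * conj c) * (deriv g z - b * deriv h z) =
        (1 - conj c * b) * p - (b - c) * q := by
      rw [hp, hq]; ring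
    have e2 : (1 - c * conj c) * (deriv h z - conj b * deriv g z) =
        (1 - c * conj b) * q - (conj b - conj c) * p := by
      rw [hp, hq]; ring
    have e3 : ‖1 - c * conj b‖ = ‖1 - conj c * b‖ := by
      have : 1 - c * conj b = conj (1 - conj c * b) := by simp
      rw [this, RCLike.norm_conj]
    have e4 : ‖conj b - conj c‖ = ‖b - c‖ := by
      rw [← map_sub, RCLike.norm_conj]
    have hw : 0 < ‖1 - c * conj c‖ := norm_pos_iff.mpr hcc
    have e5 : ‖1 - c * conj c‖ * ‖deriv g z - b * deriv h z‖ ≤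
        2 * k₀ * (‖1 - conj c * b‖ * ‖q‖) := by
      rw [← norm_mul (1 - c * conj c), e1]
      refine (norm_sub_le _ _).trans ?_
      rw [norm_mul, norm_mul]
      have a1 : ‖1 - conj c * b‖ * ‖p‖ ≤ ‖1 - conj c * b‖ * (k₀ * ‖q‖) := by gcongr
      have a2 : ‖b - c‖ * ‖q‖ ≤ k₀ * ‖1 - conj c * b‖ * ‖q‖ := by gcongr
      linarith
    have e6 : (1 - k₀ ^ 2) * (‖1 - conj c * b‖ * ‖q‖) ≤
        ‖1 - c * conj c‖ * ‖deriv h z - conj b * deriv g z‖ := by
      rw [← norm_mul (1 - c * conj c), e2]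
      refine le_trans ?_ (norm_sub_norm_le _ _)
      rw [norm_mul, norm_mul, e3, e4]
      have a2 : ‖b - c‖ * ‖p‖ ≤ k₀ * ‖1 - conj c * b‖ * (k₀ * ‖q‖) := by gcongr
      linarith
    have hX : 0 ≤ ‖1 - conj c * b‖ * ‖q‖ := by positivity
    have e7 : 2 * k₀ * (‖1 - conj c * b‖ * ‖q‖) ≤
        k₁ * ((1 - k₀ ^ 2) * (‖1 - conj c * b‖ * ‖q‖)) := by
      have e9 : 3 / 4 ≤ 1 - k₀ ^ 2 := by nlinarith
      have e10 : 2 * k₀ ≤ k₁ * (1 - k₀ ^ 2) := by
        nlinarith [mul_le_mul_of_nonneg_left e9 hk1.le]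
      calc 2 * k₀ * (‖1 - conj c * b‖ * ‖q‖) ≤
          k₁ * (1 - k₀ ^ 2) * (‖1 - conj c * b‖ * ‖q‖) := by gcongr
        _ = _ := by ring
    have e8 : ‖1 - c * conj c‖ * ‖deriv g z - b * deriv h z‖ ≤
        ‖1 - c * conj c‖ * (k₁ * ‖deriv h z - conj b * deriv g z‖) := by
      calc _ ≤ _ := e5
        _ ≤ _ := e7
        _ ≤ k₁ * (‖1 - c * conj c‖ * ‖deriv h z - conj b * deriv g z‖) := by gcongr
        _ = _ := by ring
    exact le_of_mul_le_mul_left e8 hw
  -- the normalised map
  set D : ℂ := 1 - b * conj b with hD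
  have hDc : conj D = D := by
    rw [hD, map_sub, map_mul, map_one, Complex.conj_conj, mul_comm]
  set H0 : ℂ → ℂ := fun z => (h z - conj b * g z) / D with hH0
  set G0 : ℂ → ℂ := fun z => (g z - b * h z) / D with hG0
  have dH : ∀ z ∈ ball (0:ℂ) 1, HasDerivAt H0 ((deriv h z - conj b * deriv g z) / D) z := by
    intro z hz
    exact (((hasDerivAt_of hh hz).sub ((hasDerivAt_of hg hz).const_mul (conj b))).div_const D)
  have dG : ∀ z ∈ ball (0:ℂ) 1, HasDerivAt G0 ((deriv g z - b * deriv h z) / D) z := by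
    intro z hz
    exact (((hasDerivAt_of hg hz).sub ((hasDerivAt_of hh hz).const_mul b)).div_const D)
  have hDp : 0 < ‖D‖ := norm_pos_iff.mpr hbb
  have hSH : SH k₁ H0 G0 := by
    refine ⟨⟨?_, ?_, ?_, ?_⟩, ?_, ?_, ?_, ?_⟩
    · intro z hz
      exact (dH z hz).differentiableAt.differentiableWithinAt
    · intro z hz
      exact (dG z hz).differentiableAt.differentiableWithinAt
    · intro z hz
      rw [(dH z hz).deriv, (dG z hz).deriv, norm_div, norm_div]
      apply div_lt_div_of_pos_right _ hDp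
      have h2 := hlt z hz
      have h3 : ‖deriv g z - b * deriv h z‖ ^ 2 + (1 - ‖b‖ ^ 2) * (‖deriv h z‖ ^ 2 -
          ‖deriv g z‖ ^ 2) = ‖deriv h z - conj b * deriv g z‖ ^ 2 := by
        simp only [Complex.sq_norm, Complex.normSq_apply, Complex.sub_re, Complex.sub_im,
          Complex.mul_re, Complex.mul_im, Complex.conj_re, Complex.conj_im]
        ring
      have h4 : 0 < (1 - ‖b‖ ^ 2) * (‖deriv h z‖ ^ 2 - ‖deriv g z‖ ^ 2) := by
        apply mul_pos
        · nlinarith [norm_nonneg b]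
        · nlinarith [norm_nonneg (deriv g z)]
      have h5 : ‖deriv g z - b * deriv h z‖ ^ 2 < ‖deriv h z - conj b * deriv g z‖ ^ 2 := by
        linarith
      exact lt_of_pow_lt_pow_left₀ 2 (norm_nonneg _) h5
    · intro z₁ hz1 z₂ hz2 heq
      apply hinj hz1 hz2
      have e1 : ∀ z, H0 z + conj (G0 z) =
          ((h z + conj (g z)) - conj b * conj (h z + conj (g z))) / D := by
        intro z
        simp only [hH0, hG0, map_div₀, map_sub, map_mul, map_add, Complex.conj_conj, hDc]
        ring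
      simp only [e1] at heq
      have h2 := (div_left_inj' hbb).mp heq
      set u : ℂ := h z₁ + conj (g z₁) with hu
      set v : ℂ := h z₂ + conj (g z₂) with hv
      have h3 : u - v = conj b * conj (u - v) := by
        rw [map_sub]
        linear_combination h2
      have h4 : ‖u - v‖ = ‖b‖ * ‖u - v‖ := by
        have := congrArg norm h3
        rwa [norm_mul, RCLike.norm_conj, RCLike.norm_conj] at this
      have h5 : ‖u - v‖ = 0 := by
        have : (1 - ‖b‖) * ‖u - v‖ = 0 := by linarith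
        rcases mul_eq_zero.mp this with h6 | h6
        · linarith
        · exact h6
      exact sub_eq_zero.mp (norm_eq_zero.mp h5)
    · simp [hH0, h0, g0]
    · simp [hG0, h0, g0]
    · rw [(dH 0 h0b).deriv, h1, ← hb, mul_comm, ← hD]
      exact div_self hbb
    · intro z hz
      have hz' : z ∈ ball (0:ℂ) 1 := by simpa using hz
      rw [(dH z hz').deriv, (dG z hz').deriv, norm_div, norm_div, ← mul_div_assoc]
      apply div_le_div_of_nonneg_right (hdil2 z hz') hDp.le
  have hco := hall H0 G0 hSH n hn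
  have hH0d := hSH.hd
  have hG0d := hSH.gd
  -- coefficients of `h` and `g`
  have lin : ∀ F G : ℂ → ℂ, DifferentiableOn ℂ F (ball 0 1) → DifferentiableOn ℂ G (ball 0 1) →
      ∀ a : ℂ, co (fun z => F z + a * G z) n = co F n + a * co G n := by
    intro F G hF hG a
    have hFG : DifferentiableOn ℂ (fun z => F z + a * G z) (ball 0 1) :=
      hF.add (hG.const_mul a)
    have f1 := fc_nat hFG (t := 1 / 2) ⟨by norm_num, by norm_num⟩ n
    have f2 := fc_nat hF (t := 1 / 2) ⟨by norm_num, by norm_num⟩ n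
    have f3 := fc_nat hG (t := 1 / 2) ⟨by norm_num, by norm_num⟩ n
    have cont : ∀ K : ℂ → ℂ, DifferentiableOn ℂ K (ball 0 1) →
        Continuous (fun x => K (Pool.Agent.HU26.pt (1 / 2) x)) := by
      intro K hK
      have hptc : Continuous (fun x : ℝ => Pool.Agent.HU26.pt (1 / 2) x) := by
        unfold Pool.Agent.HU26.pt; fun_prop
      exact hK.continuousOn.comp_continuous hptc
        (fun x => Pool.Agent.HU26.pt_mem_ball x ⟨by norm_num, by norm_num⟩)
    have f4 := Pool.Agent.HU26.FC_add (cont F hF) (v := fun x => a * G (Pool.Agent.HU26.pt (1 / 2) x))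
      ((cont G hG).const_mul a) n
    rw [Pool.Agent.HU26.FC_const_mul, f1, f2, f3] at f4
    have hne : ((1 / 2 : ℝ) : ℂ) ^ n ≠ 0 := by
      apply pow_ne_zero
      norm_num
    apply mul_right_cancel₀ hne
    rw [f4]
    ring
  have eh : ∀ z, h z = H0 z + conj b * G0 z := by
    intro z
    simp only [hH0, hG0]
    field_simp
    rw [hD]
    ring
  have eg : ∀ z, g z = G0 z + b * H0 z := by
    intro z
    simp only [hH0, hG0]
    field_simp
    rw [hD]
    ring
  have ch : co h n = co H0 n + conj b * co G0 n := by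
    rw [← lin H0 G0 hH0d hG0d, ← funext eh]
  have cg : co g n = co G0 n + b * co H0 n := by
    rw [← lin G0 H0 hG0d hH0d, ← funext eg]
  have nco : ∀ F : ℂ → ℂ, ‖iteratedDeriv n F 0‖ / (n.factorial : ℝ) = ‖co F n‖ := by
    intro F
    unfold co
    rw [norm_div, Complex.norm_natCast]
  rw [nco, nco, ch, cg]
  constructor
  · refine lt_of_le_of_lt (norm_add_le _ _) ?_
    rw [norm_mul, RCLike.norm_conj]
    nlinarith [norm_nonneg (co G0 n), norm_nonneg b]
  · refine lt_of_le_of_lt (norm_add_le _ _) ?_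
    rw [norm_mul]
    nlinarith [norm_nonneg (co H0 n), norm_nonneg b]

end Pool.Agent.Results.MP_a0ec2a_an.SmallDilatation
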